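import Mathlib
import Pool.Agent.H499R2.NDClass2
import Pool.Agent.TH204.CP.Collatz4

set_option autoImplicit false

namespace Pool.Agent.Results.MP_ff4775_nt.CoalescingPrimes

open Filter Topology

/-- The accelerated Collatz map on the integers. -/
def T (x : ℤ) : ℤ := if x % 2 = 0 then x / 2 else (3 * x + 1) / 2

/-- The trajectory of `x` is divergent. -/
def Divergent (x : ℤ) : Prop := Tendsto (fun k : ℕ => |T^[k] x|) atTop atTop

/-- `S` is invariant under the map `T` and its inverse. -/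
def Invariant (S : Set ℤ) : Prop := ∀ x : ℤ, x ∈ S ↔ T x ∈ S

/-- Among the integers of sign `s` the set `S` has natural density `δ`. -/
def HasDensity (s : ℤ) (S : Set ℤ) (δ : ℝ) : Prop :=
  Tendsto (fun N : ℕ => ({n : ℤ | 0 < s * n ∧ s * n ≤ N ∧ n ∈ S}.ncard : ℝ) / N) atTop (𝓝 δ)

/-- The scale `√ (log n) / (log log n) ^ 17`. -/
noncomputable def κ (n : ℕ) : ℝ := √ (Real.log n) / (Real.log (Real.log n)) ^ 17

/-- At some time `t` with `4 ^ t ≤ n` the trajectory of `s n` has met those of all its affine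
neighbours, the integers `m` with `|2^a 3^b m - 2^a' 3^b' s n| ≤ exp (κ n)`, `a, b, a', b' ≤ κ n`. -/
def Coalesces (s : ℤ) (n : ℕ) : Prop := ∃ t : ℕ, 4 ^ t ≤ n ∧ ∀ a a' b b' : ℕ,
  (a : ℝ) ≤ κ n → (a' : ℝ) ≤ κ n → (b : ℝ) ≤ κ n → (b' : ℝ) ≤ κ n → ∀ m : ℤ,
  |((2 ^ a * 3 ^ b * m - 2 ^ a' * 3 ^ b' * (s * n) : ℤ) : ℝ)| ≤ Real.exp (κ n) →
  T^[t + a'] m = T^[t + a] (s * n)

/-- The number of the primes `p` with `1 ≤ p - b ≤ N` and `Q (p - b)`. -/
noncomputable def Shifted (b : ℤ) (N : ℕ) (Q : ℤ → Prop) : ℕ :=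
  {p : ℕ | p.Prime ∧ b < p ∧ (p : ℤ) ≤ b + N ∧ Q (p - b)}.ncard

open Pool.Agent.TH204.CP Pool.Agent.H499R2.ND

theorem shifted_eq (P : ℤ → Prop) (b : ℤ) (N : ℕ) : QD P b N = (Shifted b N P : ℝ) := QD_eq P b N

theorem dinv : Invariant {x | Divergent x} := by
  intro x
  simp only [Set.mem_ofPred_eq]
  unfold Divergent
  rw [← tendsto_add_atTop_iff_nat (f := fun k : ℕ => |T^[k] x|) 1]
  simp only [Function.iterate_succ_apply]

theorem le_div_form {a c ℓ : ℝ} (hℓ : 0 < ℓ) (h : a * ℓ ≤ c) : a ≤ c / ℓ := by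
  rwa [le_div_iff₀ hℓ]

/-- Let `s = 1` or `s = -1`.
(1) COALESCENCE OF SHIFTED PRIMES. For every `ε` and `N ≥ N₀ (ε)` and all shifts `b` with `|b| ≤ N`, for
all but `ε N / log N` of the primes `p` with `1 ≤ p - b ≤ N` the trajectory of `s (p - b)` has, at some
time `t ≤ log₄ (p - b)`, met those of all affine neighbours of `s (p - b)`. For `b = 0`: almost all
primes `p` are such that at some time `t ≤ log₄ p` the trajectory of `s p` has met those of all affine
neighbours of `s p`.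
(2) For every set `S` invariant under `T` and its inverse, of density `δ` among the integers of sign `s`,
all `|b| ≤ N` and `N ≥ N₀ (ε)`, independent of `S` and `b`: at most `(4 δ + ε) N / log N` of the primes
`p` with `1 ≤ p - b ≤ N` have `s (p - b) ∈ S`, and if `b ≥ 0`, at least `(4 δ - 3 - ε) N / log N` do.
(3) The density `δ` of the divergent integers of sign `s` is at most `3 / 4` unless a positive
proportion of the primes `p` has `s p` divergent. For almost all primes `p`, either all integers `m` with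
`|m - s p| ≤ exp (κ p)` have divergent trajectories or none has. -/
theorem result (s : ℤ) (hs : s = 1 ∨ s = -1) :
    (∀ ε : ℝ, 0 < ε → ∃ N₀ : ℕ, ∀ N : ℕ, N₀ ≤ N → ∀ b : ℤ, |b| ≤ N →
      (Shifted b N (fun x => ¬ Coalesces s x.toNat) : ℝ) ≤ ε * N / Real.log N) ∧
    (∀ ε : ℝ, 0 < ε → ∃ N₀ : ℕ, ∀ S : Set ℤ, Invariant S → ∃ δ : ℝ, HasDensity s S δ ∧
      ∀ N : ℕ, N₀ ≤ N → ∀ b : ℤ, |b| ≤ N →
        (Shifted b N (fun x => s * x ∈ S) : ℝ) ≤ (4 * δ + ε) * N / Real.log N ∧
        (0 ≤ b → (4 * δ - 3 - ε) * N / Real.log N ≤ Shifted b N (fun x => s * x ∈ S))) ∧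
    (∃ δ : ℝ, HasDensity s {x | Divergent x} δ ∧ (0 < δ ↔ ∃ x : ℤ, 0 < s * x ∧ Divergent x) ∧
      (3 / 4 < δ → ∃ c : ℝ, 0 < c ∧ ∀ᶠ N : ℕ in atTop,
        c * (N / Real.log N) ≤ ({p : ℕ | p.Prime ∧ p ≤ N ∧ Divergent (s * p)}.ncard : ℝ)) ∧
      ∀ ε : ℝ, 0 < ε → ∀ᶠ N : ℕ in atTop,
        ({p : ℕ | p.Prime ∧ p ≤ N ∧ ¬ ((∀ m : ℤ, |((m - s * p : ℤ) : ℝ)| ≤ Real.exp (κ p) → Divergent m) ∨
          (∀ m : ℤ, |((m - s * p : ℤ) : ℝ)| ≤ Real.exp (κ p) → ¬ Divergent m))}.ncard : ℝ) ≤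
            ε * N / Real.log N) := by
  have hss : s * s = 1 := by rcases hs with rfl | rfl <;> norm_num
  have first : ∀ ε : ℝ, 0 < ε → ∃ N₀ : ℕ, ∀ N : ℕ, N₀ ≤ N → ∀ b : ℤ, |b| ≤ N →
      (Shifted b N (fun x => ¬ Coalesces s x.toNat) : ℝ) ≤ ε * N / Real.log N := by
    intro ε hε
    obtain ⟨N₀, hN₀⟩ := eventually_atTop.1 ((cprQ hs ε hε).and (Pool.Agent.W301.SS.ev_L 1))
    refine ⟨N₀, fun N hN b hb => ?_⟩
    obtain ⟨h1, h2⟩ := hN₀ N hN
    apply le_div_form (by linarith)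
    have h3 := h1 b hb
    rw [shifted_eq] at h3
    exact h3
  have second : ∀ ε : ℝ, 0 < ε → ∃ N₀ : ℕ, ∀ S : Set ℤ, Invariant S → ∀ δ : ℝ, HD s S δ →
      ∀ N : ℕ, N₀ ≤ N → ∀ b : ℤ, |b| ≤ N →
        (Shifted b N (fun x => s * x ∈ S) : ℝ) ≤ (4 * δ + ε) * N / Real.log N ∧
        (0 ≤ b → (4 * δ - 3 - ε) * N / Real.log N ≤ Shifted b N (fun x => s * x ∈ S)) := by
    intro ε hε
    obtain ⟨N₀, hN₀⟩ := eventually_atTop.1 ((upperS hs (ε / 2) (by positivity)).and
      ((pi_unif (ε / 4) (by positivity)).and (Pool.Agent.W301.SS.ev_L 1)))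
    refine ⟨N₀, fun S hS δ hδ N hN b hb => ?_⟩
    obtain ⟨h1, h2, h3⟩ := hN₀ N hN
    have hℓ : 0 < Real.log (N : ℝ) := by linarith
    have hN0 : (0 : ℝ) ≤ N := Nat.cast_nonneg _
    constructor
    · apply le_div_form hℓ
      have h4 := h1 S hS δ hδ b hb
      rw [shifted_eq] at h4
      refine h4.trans ?_
      apply mul_le_mul_of_nonneg_right (by linarith) hN0
    · intro hb0
      obtain ⟨b', rfl⟩ : ∃ b' : ℕ, b = b' := ⟨b.toNat, (Int.toNat_of_nonneg hb0).symm⟩
      obtain ⟨δ', _, _, hδ'⟩ := dens_side odd_one isCoprime_one_left hs (Inv.compl hS)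
      have hsum := HD_compl hδ hδ'
      have h4 := h1 Sᶜ (fun x => not_congr (hS x)) δ' hδ' b' hb
      have h5 := QD_le (PS s S) b' N
      have hb'N : b' ≤ N := by
        rw [abs_of_nonneg (by positivity)] at hb
        exact_mod_cast hb
      have g1 := abs_le.1 (h2 (b' + N) (by omega))
      have g2 := abs_le.1 (h2 b' (by omega))
      have e : QD (PS s Sᶜ) (b' : ℤ) N = QD (fun x => ¬ PS s S x) (b' : ℤ) N := rfl
      rw [e] at h4
      have e2 : QD (PS s S) (b' : ℤ) N = (Shifted b' N (fun x => s * x ∈ S) : ℝ) := shifted_eq _ _ _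
      rw [← e2, div_le_iff₀ hℓ]
      push_cast at g1
      have e3 : QD (PS s S) (b' : ℤ) N * Real.log N =
          ((Nat.primeCounting (b' + N) : ℝ) * Real.log N - (Nat.primeCounting b' : ℝ) * Real.log N) -
            QD (fun x => ¬ PS s S x) (b' : ℤ) N * Real.log N := by
        rw [← sub_mul, ← h5]; ring
      rw [e3]
      have e4 : δ' = 1 - δ := by linarith
      rw [e4] at h4
      nlinarith
  refine ⟨first, ?_, ?_⟩
  · intro ε hε
    obtain ⟨N₀, hN₀⟩ := second ε hε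
    refine ⟨N₀, fun S hS => ?_⟩
    obtain ⟨δ, _, _, hδ⟩ := dens_side odd_one isCoprime_one_left hs (S := S) hS
    exact ⟨δ, HD_ncard hs hδ, hN₀ S hS δ hδ⟩
  · obtain ⟨δ, hδ0, _, hδ⟩ := dens_side odd_one isCoprime_one_left hs (S := {x | Divergent x}) dinv
    refine ⟨δ, HD_ncard hs hδ, ?_, ?_, ?_⟩
    · constructor
      · intro h
        by_contra hcon
        push Not at hcon
        have := one_eq_zero hs (S := {x | Divergent x}) (fun a ha h0 => absurd ha (hcon a h0)) hδ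
        linarith
      · rintro ⟨x, hx0, hx⟩
        exact Pool.Agent.H499R2.ND.one_pos hs dinv hx hx0 hδ
    · intro h34
      obtain ⟨N₀, hN₀⟩ := second ((4 * δ - 3) / 2) (by linarith)
      refine ⟨(4 * δ - 3) / 2, by linarith, ?_⟩
      filter_upwards [eventually_ge_atTop N₀] with N hN
      have h1 := (hN₀ _ dinv δ hδ N hN 0 (by simp)).2 le_rfl
      have e : (Shifted 0 N (fun x => s * x ∈ {x | Divergent x}) : ℝ) =
          ({p : ℕ | p.Prime ∧ p ≤ N ∧ Divergent (s * p)}.ncard : ℝ) := by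
        unfold Shifted
        congr 2
        ext p
        simp only [Set.mem_ofPred_eq, sub_zero, zero_add]
        constructor
        · rintro ⟨h1, _, h2, h3⟩; exact ⟨h1, by exact_mod_cast h2, h3⟩
        · rintro ⟨h1, h2, h3⟩; exact ⟨h1, by exact_mod_cast h1.pos, by exact_mod_cast h2, h3⟩
      rw [e] at h1
      refine le_trans (le_of_eq ?_) h1
      ring
    · intro ε hε
      obtain ⟨N₀, hN₀⟩ := first (ε / 2) (by positivity)
      filter_upwards [eventually_ge_atTop N₀, Pool.Agent.W301.SS.ev_log 1 (2 / ε) 1 one_pos,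
        Pool.Agent.W301.SS.ev_L 1] with N hN hlogN hℓ1
      have h1 := hN₀ N hN 0 (by simp)
      have hℓ : 0 < Real.log (N : ℝ) := by linarith
      rw [pow_one, Real.rpow_one] at hlogN
      -- outside one exceptional prime the bad primes do not coalesce
      have hsub : {p : ℕ | p.Prime ∧ p ≤ N ∧ ¬ ((∀ m : ℤ, |((m - s * p : ℤ) : ℝ)| ≤ Real.exp (κ p) →
          Divergent m) ∨ (∀ m : ℤ, |((m - s * p : ℤ) : ℝ)| ≤ Real.exp (κ p) → ¬ Divergent m))} ⊆
          {p : ℕ | p.Prime ∧ (0 : ℤ) < p ∧ (p : ℤ) ≤ 0 + N ∧ ¬ Coalesces s ((p : ℤ) - 0).toNat} := by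
        rintro p ⟨hp, hpN, hno⟩
        refine ⟨hp, by exact_mod_cast hp.pos, by rw [zero_add]; exact_mod_cast hpN, ?_⟩
        rw [sub_zero, Int.toNat_natCast]
        rintro ⟨t, _, hco⟩
        apply hno
        have key : ∀ m : ℤ, |((m - s * p : ℤ) : ℝ)| ≤ Real.exp (κ p) → (Divergent m ↔ Divergent (s * p)) := by
          intro m hm
          rcases lt_or_ge (κ p) 0 with hk | hk
          · have h3 : |((m - s * p : ℤ) : ℝ)| < 1 := lt_of_le_of_lt hm (Real.exp_lt_one_iff.2 hk)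
            have h4 : |m - s * (p : ℤ)| < 1 := by exact_mod_cast h3
            rw [Int.abs_lt_one_iff] at h4
            rw [show m = s * (p : ℤ) by omega]
          · have h3 := hco 0 0 0 0 (by simpa using hk) (by simpa using hk) (by simpa using hk)
              (by simpa using hk) m (by simpa only [pow_zero, one_mul] using hm)
            rw [add_zero] at h3
            have h4 : ∀ j : ℕ, ∀ x : ℤ, Divergent x ↔ Divergent (T^[j] x) := by
              intro j
              induction j with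
              | zero => intro x; rfl
              | succ j ih =>
                intro x
                rw [Function.iterate_succ_apply, ← ih]
                exact dinv x
            rw [h4 t m, h3, ← h4 t]
        by_cases hd : Divergent (s * p)
        · exact Or.inl (fun m hm => (key m hm).2 hd)
        · exact Or.inr (fun m hm h => hd ((key m hm).1 h))
      have hfin : {p : ℕ | p.Prime ∧ (0 : ℤ) < p ∧ (p : ℤ) ≤ 0 + N ∧
          ¬ Coalesces s ((p : ℤ) - 0).toNat}.Finite := by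
        refine (Set.finite_Iic N).subset (fun p hp => ?_)
        have := hp.2.2.1
        rw [Set.mem_Iic]; omega
      have h2 : ({p : ℕ | p.Prime ∧ p ≤ N ∧ ¬ ((∀ m : ℤ, |((m - s * p : ℤ) : ℝ)| ≤ Real.exp (κ p) →
          Divergent m) ∨ (∀ m : ℤ, |((m - s * p : ℤ) : ℝ)| ≤ Real.exp (κ p) → ¬ Divergent m))}.ncard : ℝ) ≤
          Shifted 0 N (fun x => ¬ Coalesces s x.toNat) := by
        exact Nat.cast_le.2 (Set.ncard_le_ncard hsub hfin)
      refine h2.trans (h1.trans ?_)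
      apply div_le_div_of_nonneg_right _ hℓ.le
      apply mul_le_mul_of_nonneg_right (by linarith) (Nat.cast_nonneg _)

end Pool.Agent.Results.MP_ff4775_nt.CoalescingPrimes
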