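import Pool.Agent.TH930.SP.Loc

set_option autoImplicit false

/-!
Divergent trajectories of the 3x+1 map on the integers: a counting exponent strictly below the entropy
exponent, in every interval.
-/

namespace Pool.Agent.Results.MP_ff4775_nt.CountBelowEntropy

open Filter

/-- The 3x+1 map on the integers. -/
def T (x : ℤ) : ℤ := if x % 2 = 0 then x / 2 else (3 * x + 1) / 2

/-- There are `η` strictly smaller than the base-two binary entropy `0.94995...` of `log 2 / log 3` and
`C` such that every divergent trajectory of the 3x+1 map on the integers has at most `C R ^ η` elements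
in the interval `[y - R, y + R]`, for all real `y` and all `R ≥ 1`. -/
theorem result : ∃ η C : ℝ, η < Real.binEntropy (Real.log 2 / Real.log 3) / Real.log 2 ∧
    ∀ n : ℤ, Tendsto (fun k => |T^[k] n|) atTop atTop → ∀ y R : ℝ, 1 ≤ R →
      (Set.ncard {z : ℤ | (∃ k : ℕ, T^[k] n = z) ∧ |(z : ℝ) - y| ≤ R} : ℝ) ≤ C * R ^ η := by
  classical
  obtain ⟨η, A, -, hη, -, h⟩ := Pool.Agent.TH930.SP.sparse_loc
  refine ⟨η, A, hη, ?_⟩
  intro x _ y R hR
  set S : Set ℤ := {z : ℤ | (∃ n : ℕ, T^[n] x = z) ∧ |(z : ℝ) - y| ≤ R} with hS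
  have hfin : S.Finite := by
    apply (Set.finite_Icc (-⌈R - y⌉) ⌈R + y⌉).subset
    intro z hz
    have h := hz.2
    rw [abs_le] at h
    have h1 := Int.le_ceil (R - y)
    have h2 := Int.le_ceil (R + y)
    constructor
    · have : (-(⌈R - y⌉ : ℝ)) ≤ z := by linarith [h.1]
      exact_mod_cast this
    · have : (z : ℝ) ≤ ⌈R + y⌉ := by linarith [h.2]
      exact_mod_cast this
  rw [Set.ncard_eq_toFinset_card S hfin]
  have hF : ∀ z ∈ hfin.toFinset, (∃ n : ℕ, T^[n] x = z) ∧ |(z : ℝ) - y| ≤ R := by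
    intro z hz
    rw [Set.Finite.mem_toFinset] at hz
    exact hz
  obtain ⟨r, hinj, hr⟩ := Pool.Agent.H319R2.G.finite_subset_path T x hfin.toFinset
    (fun z hz => (hF z hz).1)
  have h1 := h 1 odd_one _ (Pool.Agent.H319R2.G.tame_path (Pool.Agent.TH930.EBQ.T 1) x r hinj) y R hR
    hfin.toFinset (by
      intro z hz
      obtain ⟨i, hi, he⟩ := hr z hz
      exact ⟨⟨i, hi, he⟩, (hF z hz).2⟩)
  rwa [Int.cast_one, abs_one, Real.one_rpow, mul_one] at h1

end Pool.Agent.Results.MP_ff4775_nt.CountBelowEntropy
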