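import Mathlib
import Pool.Agent.H499R2.NDClass2
import Pool.Agent.TH926.BL.Box
import Pool.Agent.TH926.BL.Pat

set_option autoImplicit false

namespace Pool.Agent.Results.MP_ff4775_nt.ProductsOfTwoPrimes

open Filter Topology

/-- The accelerated Collatz map on the integers. -/
def T (x : ℤ) : ℤ := if x % 2 = 0 then x / 2 else (3 * x + 1) / 2

/-- The trajectory of `x` is divergent. -/
def Divergent (x : ℤ) : Prop := Tendsto (fun k : ℕ => |T^[k] x|) atTop atTop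

/-- `S` is invariant under the map `T` and its inverse. -/
def Invariant (S : Set ℤ) : Prop := ∀ x : ℤ, x ∈ S ↔ T x ∈ S

/-- Among the integers of sign `s` the set `S` has natural density `δ`. -/
def HasDensity (s : ℤ) (S : Set ℤ) (δ : ℝ) : Prop :=
  Tendsto (fun N : ℕ => ({n : ℤ | 0 < s * n ∧ s * n ≤ N ∧ n ∈ S}.ncard : ℝ) / N) atTop (𝓝 δ)

/-- The number of the pairs of primes `p ∈ A`, `q ∈ B` with `N ^ α ≤ p ≤ N ^ β`, `r p q ≤ N` and
`s r p q ∈ S`. -/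
noncomputable def Pairs (s : ℤ) (S : Set ℤ) (A B : Set ℕ) (α β : ℝ) (r N : ℕ) : ℕ :=
  {z : ℕ × ℕ | (z.1.Prime ∧ z.1 ∈ A ∧ (N : ℝ) ^ α ≤ z.1 ∧ (z.1 : ℝ) ≤ (N : ℝ) ^ β) ∧
    (z.2.Prime ∧ z.2 ∈ B) ∧ r * z.1 * z.2 ≤ N ∧ s * (r * z.1 * z.2 : ℕ) ∈ S}.ncard

/-- The number of the tuples of primes `p i ∈ A i` in `(P, 2 P]` (`i < k`) and `q j ∈ B j` in `[1, N]`
(`j < l`) with `s (p i) (q j) ∈ S i j` for all `i` and `j`. -/
noncomputable def Tuples (s : ℤ) {k l : ℕ} (S : Fin k → Fin l → Set ℤ) (A : Fin k → Set ℕ)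
    (B : Fin l → Set ℕ) (P : ℝ) (N : ℕ) : ℕ :=
  {z : (Fin k → ℕ) × (Fin l → ℕ) | (∀ i, (z.1 i).Prime ∧ z.1 i ∈ A i ∧ P < z.1 i ∧ (z.1 i : ℝ) ≤ 2 * P) ∧
    (∀ j, (z.2 j).Prime ∧ z.2 j ∈ B j ∧ z.2 j ≤ N) ∧ ∀ i j, s * (z.1 i * z.2 j : ℕ) ∈ S i j}.ncard

/-- The number of the tuples of primes `p i` in `(P, 2 P]` (`i < k`) and `q j` in `[1, N]` (`j < l`). -/
noncomputable def AllTuples (k l : ℕ) (P : ℝ) (N : ℕ) : ℕ :=
  {p : ℕ | p.Prime ∧ P < p ∧ (p : ℝ) ≤ 2 * P}.ncard ^ k * {q : ℕ | q.Prime ∧ q ≤ N}.ncard ^ l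

open Pool.Agent.H499R2.ND Pool.Agent.TH926.BL Pool.Agent.W41 Pool.Agent.W41.FU
open scoped Classical

theorem dinv : Invariant {x | Divergent x} := by
  intro x
  simp only [Set.mem_ofPred_eq]
  unfold Divergent
  rw [← tendsto_add_atTop_iff_nat (f := fun k : ℕ => |T^[k] x|) 1]
  simp only [Function.iterate_succ_apply]

theorem HD_of {s : ℤ} (hs : s = 1 ∨ s = -1) {S : Set ℤ} (hS : Invariant S) {δ : ℝ}
    (h : HasDensity s S δ) : HD s S δ := by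
  obtain ⟨δ', _, _, hδ'⟩ := dens_side odd_one isCoprime_one_left hs (S := S) hS
  have h1 : HasDensity s S δ' := HD_ncard hs hδ'
  rw [tendsto_nhds_unique h h1]
  exact hδ'

theorem ind_pow {s : ℤ} {S : Set ℤ} (hS : Invariant S) (e m : ℕ) :
    s * ((2 ^ e * m : ℕ) : ℤ) ∈ S ↔ s * (m : ℤ) ∈ S := by
  have h := Inv.two_pow (d := 1) (S := S) hS e (s * (m : ℤ))
  rw [← h]
  have e1 : s * ((2 ^ e * m : ℕ) : ℤ) = 2 ^ e * (s * (m : ℤ)) := by push_cast; ring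
  rw [e1]

theorem pairs_eq {s : ℤ} {S : Set ℤ} (hS : Invariant S) (A B : Set ℕ) (α β : ℝ) {e r' N : ℕ} (hN : 1 ≤ N)
    (hr' : 1 ≤ r') :
    (Pairs s S A B α β (2 ^ e * r') N : ℝ) =
      ∑ p ∈ (RG (α * Real.log N) (β * Real.log N)).filter (fun p => p ∈ A),
        ∑ q ∈ QQ B ⌊(N : ℝ) / 2 ^ e / (p * r')⌋₊, ind s S ((p * (r' * q) : ℕ) : ℤ) := by
  have hN0 : (0 : ℝ) < N := by exact_mod_cast hN
  have hr0 : (0 : ℝ) < r' := by exact_mod_cast hr'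
  have e1 : {z : ℕ × ℕ | (z.1.Prime ∧ z.1 ∈ A ∧ (N : ℝ) ^ α ≤ z.1 ∧ (z.1 : ℝ) ≤ (N : ℝ) ^ β) ∧
      (z.2.Prime ∧ z.2 ∈ B) ∧ 2 ^ e * r' * z.1 * z.2 ≤ N ∧ s * (2 ^ e * r' * z.1 * z.2 : ℕ) ∈ S} =
      (((RG (α * Real.log N) (β * Real.log N)).filter (fun p => p ∈ A)).biUnion (fun p =>
        ((QQ B ⌊(N : ℝ) / 2 ^ e / (p * r')⌋₊).filter
          (fun q => s * ((p * (r' * q) : ℕ) : ℤ) ∈ S)).image (fun q => (p, q))) : Finset (ℕ × ℕ)) := by
    ext ⟨p, q⟩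
    simp only [Finset.coe_biUnion, Finset.coe_image, Set.mem_iUnion, Set.mem_image, Finset.mem_coe,
      Finset.mem_filter, mem_RG, mem_QQ, Set.mem_ofPred_eq, Prod.mk.injEq, exists_prop]
    have hp : ∀ p : ℕ, p.Prime → (((N : ℝ) ^ α ≤ p ↔ α * Real.log N ≤ Real.log p) ∧
        ((p : ℝ) ≤ (N : ℝ) ^ β ↔ Real.log p ≤ β * Real.log N)) := by
      intro p hp
      have hp0 : (0 : ℝ) < p := by exact_mod_cast hp.pos
      rw [Real.rpow_def_of_pos hN0, Real.rpow_def_of_pos hN0, mul_comm (Real.log N), mul_comm (Real.log N)]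
      exact ⟨(Real.le_log_iff_exp_le hp0).symm, (Real.log_le_iff_le_exp hp0).symm⟩
    have hq : ∀ p q : ℕ, p.Prime → (2 ^ e * r' * p * q ≤ N ↔ q ≤ ⌊(N : ℝ) / 2 ^ e / (p * r')⌋₊) := by
      intro p q hp
      have hp0 : (0 : ℝ) < p := by exact_mod_cast hp.pos
      rw [Nat.le_floor_iff (by positivity), le_div_iff₀ (by positivity), le_div_iff₀ (by positivity)]
      have e2 : (q : ℝ) * (p * r') * 2 ^ e = ((2 ^ e * r' * p * q : ℕ) : ℝ) := by push_cast; ring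
      rw [e2, Nat.cast_le]
    have hm : ∀ p q : ℕ, (s * (2 ^ e * r' * p * q : ℕ) ∈ S ↔ s * ((p * (r' * q) : ℕ) : ℤ) ∈ S) := by
      intro p q
      rw [← ind_pow hS e (p * (r' * q))]
      have e2 : 2 ^ e * r' * p * q = 2 ^ e * (p * (r' * q)) := by ring
      rw [e2]
    constructor
    · rintro ⟨⟨h1, h2, h3, h4⟩, ⟨h5, h6⟩, h7, h8⟩
      exact ⟨p, ⟨⟨h1, (hp p h1).1.1 h3, (hp p h1).2.1 h4⟩, h2⟩, q, ⟨⟨(hq p q h1).1 h7, h5, h6⟩, (hm p q).1 h8⟩,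
        rfl, rfl⟩
    · rintro ⟨p', ⟨⟨h1, h3, h4⟩, h2⟩, q', ⟨⟨h7, h5, h6⟩, h8⟩, rfl, rfl⟩
      exact ⟨⟨h1, h2, (hp _ h1).1.2 h3, (hp _ h1).2.2 h4⟩, ⟨h5, h6⟩, (hq _ _ h1).2 h7, (hm _ _).2 h8⟩
  unfold Pairs
  rw [e1, Set.ncard_coe_finset, Finset.card_biUnion]
  · push_cast
    apply Finset.sum_congr rfl
    intro p _
    rw [Finset.card_image_of_injective _ (fun a b h => (Prod.mk.inj h).2), Finset.card_filter]
    push_cast
    apply Finset.sum_congr rfl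
    intro q _
    rfl
  · intro p _ p' _ hpp
    rw [Function.onFun, Finset.disjoint_left]
    intro z h1 h2
    rw [Finset.mem_image] at h1 h2
    obtain ⟨q, _, rfl⟩ := h1
    obtain ⟨q', _, h3⟩ := h2
    exact hpp (Prod.mk.inj h3).1.symm

theorem part1 {s : ℤ} (hs : s = 1 ∨ s = -1) (ε : ℝ) (hε : 0 < ε) : ∃ ϑ : ℝ, 0 < ϑ ∧
    ∀ α β : ℝ, 0 < α → α < β → β ≤ ϑ → ∃ N₀ : ℕ, ∀ N : ℕ, N₀ ≤ N → ∀ (S : Set ℤ) (δ : ℝ),
      Invariant S → HasDensity s S δ → ∀ r : ℕ, 1 ≤ r → (r : ℝ) ≤ (N : ℝ) ^ ϑ →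
      0 < Pairs s Set.univ Set.univ Set.univ α β r N ∧ ∀ A B : Set ℕ,
      |(Pairs s S A B α β r N : ℝ) - δ * Pairs s Set.univ A B α β r N| ≤
        ε * Pairs s Set.univ Set.univ Set.univ α β r N := by
  obtain ⟨ϑ0, h0, h01, hP⟩ := sum_P hs (show 0 < min ε 1 from lt_min hε one_pos) (min_le_right _ _)
  refine ⟨ϑ0 / 4, by positivity, fun α β hα hαβ hβ => ?_⟩
  obtain ⟨Z0, hZ02, hZ0⟩ := hP α hα (β - α) (by linarith)
  obtain ⟨N0, hN0⟩ := eventually_atTop.1 (tendsto_natCast_atTop_atTop (R := ℝ) |>.eventually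
    (((tendsto_rpow_atTop (show (0 : ℝ) < 1 / 2 by norm_num)).eventually_ge_atTop Z0).and
      (eventually_ge_atTop (2 : ℝ))))
  refine ⟨N0, fun N hN S δ hS hδ r hr hrN => ?_⟩
  obtain ⟨z1, z2⟩ := hN0 N hN
  have hN0' : (0 : ℝ) < N := by linarith
  have hN1 : (1 : ℝ) ≤ N := by linarith
  have hN1' : 1 ≤ N := by exact_mod_cast hN1
  have hlogN : 0 < Real.log N := Real.log_pos (by linarith)
  obtain ⟨e, r', hr', rfl⟩ := Nat.exists_eq_two_pow_mul_odd (n := r) (by omega)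
  have hr1 : 1 ≤ r' := hr'.pos
  have hr0 : (0 : ℝ) < r' := by exact_mod_cast hr1
  have hr1' : (1 : ℝ) ≤ r' := by exact_mod_cast hr1
  have huniv : Invariant Set.univ := fun x => by simp
  have hD := HD_of hs hS hδ
  suffices hgoal : (0 : ℝ) < Pairs s Set.univ Set.univ Set.univ α β (2 ^ e * r') N ∧ ∀ A B : Set ℕ,
      |(Pairs s S A B α β (2 ^ e * r') N : ℝ) - δ * Pairs s Set.univ A B α β (2 ^ e * r') N| ≤
        ε * Pairs s Set.univ Set.univ Set.univ α β (2 ^ e * r') N from ⟨by exact_mod_cast hgoal.1, hgoal.2⟩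
  simp only [pairs_eq hS _ _ α β hN1' hr1, pairs_eq huniv _ _ α β hN1' hr1]
  set Z : ℝ := (N : ℝ) / 2 ^ e with hZ
  have h2e : (1 : ℝ) ≤ 2 ^ e := one_le_pow₀ (by norm_num)
  push_cast at hrN
  have h2eN : (2 : ℝ) ^ e ≤ (N : ℝ) ^ (ϑ0 / 4) := le_trans (le_mul_of_one_le_right (by positivity) hr1') hrN
  have hrN' : (r' : ℝ) ≤ (N : ℝ) ^ (ϑ0 / 4) := le_trans (le_mul_of_one_le_left (by positivity) h2e) hrN
  have h2eh : (2 : ℝ) ^ e ≤ (N : ℝ) ^ (1 / 2 : ℝ) :=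
    h2eN.trans (Real.rpow_le_rpow_of_exponent_le hN1 (by linarith))
  have hZh : (N : ℝ) ^ (1 / 2 : ℝ) ≤ Z := by
    rw [hZ, le_div_iff₀ (by positivity)]
    calc (N : ℝ) ^ (1 / 2 : ℝ) * 2 ^ e ≤ (N : ℝ) ^ (1 / 2 : ℝ) * (N : ℝ) ^ (1 / 2 : ℝ) :=
          mul_le_mul_of_nonneg_left h2eh (by positivity)
      _ = N := by rw [← Real.rpow_add hN0']; norm_num
  have hZ0' : 0 < Z := by positivity
  have hZN : Z ≤ N := div_le_self hN0'.le h2e
  have hlog1 : Real.log N / 2 ≤ Real.log Z := by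
    have := Real.log_le_log (by positivity) hZh
    rw [Real.log_rpow hN0'] at this
    linarith
  have hlog2 : Real.log Z ≤ Real.log N := Real.log_le_log hZ0' hZN
  have hmain := hZ0 Z (z1.trans hZh) S hS δ hD (α * Real.log N) (β * Real.log N)
    (mul_le_mul_of_nonneg_left hlog2 hα.le)
    (by have := mul_le_mul_of_nonneg_left hlog2 (show 0 ≤ β - α by linarith); linarith)
    (by
      have h1 := mul_le_mul_of_nonneg_right hβ hlogN.le
      have h2 := mul_le_mul_of_nonneg_left hlog1 h0.le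
      nlinarith [mul_pos h0 hlogN])
    r' (Nat.odd_iff.1 hr') (by
      refine hrN'.trans ?_
      rw [Real.rpow_def_of_pos hN0', Real.rpow_def_of_pos hZ0']
      apply Real.exp_le_exp.2
      have h2 := mul_le_mul_of_nonneg_right hlog1 h0.le
      nlinarith [mul_pos h0 hlogN])
  have e1 : ∀ (A' B' : Set ℕ), ∑ p ∈ (RG (α * Real.log N) (β * Real.log N)).filter (fun p => p ∈ A'),
      ∑ q ∈ QQ B' ⌊Z / (p * r')⌋₊, ind s Set.univ ((p * (r' * q) : ℕ) : ℤ) =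
      ∑ p ∈ (RG (α * Real.log N) (β * Real.log N)).filter (fun p => p ∈ A'),
        ((QQ B' ⌊Z / (p * r')⌋₊).card : ℝ) := by
    intro A' B'
    apply Finset.sum_congr rfl
    intro p _
    unfold ind
    simp
  have e2 : ∀ A B : Set ℕ, ∑ p ∈ (RG (α * Real.log N) (β * Real.log N)).filter (fun p => p ∈ A),
      ∑ q ∈ QQ B ⌊Z / (p * r')⌋₊, ind s S ((p * (r' * q) : ℕ) : ℤ) -
      δ * ∑ p ∈ (RG (α * Real.log N) (β * Real.log N)).filter (fun p => p ∈ A),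
        ((QQ B ⌊Z / (p * r')⌋₊).card : ℝ) =
      ∑ p ∈ (RG (α * Real.log N) (β * Real.log N)).filter (fun p => p ∈ A),
        ∑ q ∈ QQ B ⌊Z / (p * r')⌋₊, bal s S δ ((p * (r' * q) : ℕ) : ℤ) := by
    intro A B
    rw [Finset.mul_sum, ← Finset.sum_sub_distrib]
    apply Finset.sum_congr rfl
    intro p _
    unfold bal
    rw [Finset.sum_sub_distrib, Finset.sum_const, nsmul_eq_mul]
    ring
  have e3 : ∀ A' : Set ℕ, A' = Set.univ → (RG (α * Real.log N) (β * Real.log N)).filter (fun p => p ∈ A') =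
      RG (α * Real.log N) (β * Real.log N) := by
    intro A' hA'
    ext p
    rw [Finset.mem_filter, hA']
    simp
  rw [e1, e3 Set.univ rfl]
  refine ⟨(hmain Set.univ Set.univ).1, fun A B => ?_⟩
  rw [e1, e2]
  refine (hmain A B).2.trans ?_
  apply mul_le_mul_of_nonneg_right (min_le_left _ _)
  exact Finset.sum_nonneg fun _ _ => Nat.cast_nonneg _

theorem tuples_eq {s : ℤ} {k l : ℕ} (S : Fin k → Fin l → Set ℤ) (A : Fin k → Set ℕ)
    (B : Fin l → Set ℕ) (P : ℝ) (N : ℕ) :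
    (Tuples s S A B P N : ℝ) = CU (fun i => (DP P).filter (fun p => p ∈ A i)) (fun j => QQ (B j) N)
      (fun (e : Fin k × Fin l) p q => s * ((p * q : ℕ) : ℤ) ∈ S e.1 e.2) Finset.univ := by
  have e1 : {z : (Fin k → ℕ) × (Fin l → ℕ) | (∀ i, (z.1 i).Prime ∧ z.1 i ∈ A i ∧ P < z.1 i ∧
      (z.1 i : ℝ) ≤ 2 * P) ∧
      (∀ j, (z.2 j).Prime ∧ z.2 j ∈ B j ∧ z.2 j ≤ N) ∧ ∀ i j, s * (z.1 i * z.2 j : ℕ) ∈ S i j} =
      ((((Fintype.piFinset (fun i => (DP P).filter (fun p => p ∈ A i))) ×ˢ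
        (Fintype.piFinset (fun j => QQ (B j) N))).filter
        (fun z => ∀ e ∈ (Finset.univ : Finset (Fin k × Fin l)),
          s * ((z.1 e.1 * z.2 e.2 : ℕ) : ℤ) ∈ S e.1 e.2) : Finset _) : Set ((Fin k → ℕ) × (Fin l → ℕ))) := by
    ext ⟨x, y⟩
    simp only [Set.mem_ofPred_eq, Finset.coe_filter, Finset.mem_product, Fintype.mem_piFinset,
      Finset.mem_filter, mem_DP, mem_QQ, Finset.mem_univ, forall_true_left, Prod.forall]
    constructor
    · rintro ⟨h1, h2, h3⟩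
      exact ⟨⟨fun i => ⟨⟨(h1 i).1, (h1 i).2.2.1, (h1 i).2.2.2⟩, (h1 i).2.1⟩,
        fun j => ⟨(h2 j).2.2, (h2 j).1, (h2 j).2.1⟩⟩, h3⟩
    · rintro ⟨⟨h1, h2⟩, h3⟩
      exact ⟨fun i => ⟨(h1 i).1.1, (h1 i).2, (h1 i).1.2.1, (h1 i).1.2.2⟩,
        fun j => ⟨(h2 j).2.1, (h2 j).2.2, (h2 j).1⟩, h3⟩
  unfold Tuples CU
  rw [e1, Set.ncard_coe_finset, Finset.card_filter, Finset.sum_product]
  push_cast
  rfl

theorem tuples_univ {s : ℤ} {k l : ℕ} (A : Fin k → Set ℕ) (B : Fin l → Set ℕ) (P : ℝ) (N : ℕ) :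
    (Tuples s (fun (_ : Fin k) (_ : Fin l) => Set.univ) A B P N : ℝ) =
      (∏ i, (((DP P).filter (fun p => p ∈ A i)).card : ℝ)) * ∏ j, ((QQ (B j) N).card : ℝ) := by
  rw [tuples_eq]
  unfold CU
  have hk : ((Fintype.piFinset (fun i : Fin k => (DP P).filter (fun p => p ∈ A i))).card : ℝ) =
      ∏ i, (((DP P).filter (fun p => p ∈ A i)).card : ℝ) := by
    rw [Fintype.card_piFinset]
    push_cast
    rfl
  have hl : ((Fintype.piFinset (fun j : Fin l => QQ (B j) N)).card : ℝ) = ∏ j, ((QQ (B j) N).card : ℝ) := by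
    rw [Fintype.card_piFinset]
    push_cast
    rfl
  simp only [Set.mem_univ, implies_true, if_true, Finset.sum_const, nsmul_eq_mul, mul_one]
  rw [hk, hl]

theorem all_eq (k l : ℕ) (P : ℝ) (N : ℕ) :
    (AllTuples k l P N : ℝ) = ((DP P).card : ℝ) ^ k * ((QQ Set.univ N).card : ℝ) ^ l := by
  have e1 : {p : ℕ | p.Prime ∧ P < p ∧ (p : ℝ) ≤ 2 * P} = (DP P : Set ℕ) := by
    ext p
    rw [Finset.mem_coe, mem_DP]
    rfl
  have e2 : {q : ℕ | q.Prime ∧ q ≤ N} = (QQ Set.univ N : Set ℕ) := by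
    ext q
    rw [Finset.mem_coe, mem_QQ]
    constructor
    · rintro ⟨a, b⟩; exact ⟨b, a, Set.mem_univ _⟩
    · rintro ⟨b, a, _⟩; exact ⟨a, b⟩
  unfold AllTuples
  rw [e1, e2, Set.ncard_coe_finset, Set.ncard_coe_finset]
  push_cast
  rfl

theorem part2 {s : ℤ} (hs : s = 1 ∨ s = -1) (k l : ℕ) (ε : ℝ) (hε : 0 < ε) : ∃ ϑ : ℝ, 0 < ϑ ∧
    ∀ α : ℝ, 0 < α → ∃ N₀ : ℕ, ∀ N : ℕ, N₀ ≤ N → ∀ P : ℝ, (N : ℝ) ^ α ≤ P → P ≤ (N : ℝ) ^ ϑ →
      ∀ (S : Fin k → Fin l → Set ℤ) (δ : Fin k → Fin l → ℝ),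
      (∀ i j, Invariant (S i j) ∧ HasDensity s (S i j) (δ i j)) →
      0 < AllTuples k l P N ∧ ∀ (A : Fin k → Set ℕ) (B : Fin l → Set ℕ),
      |(Tuples s S A B P N : ℝ) - (∏ i, ∏ j, δ i j) *
        Tuples s (fun (_ : Fin k) (_ : Fin l) => Set.univ) A B P N| ≤ ε * AllTuples k l P N := by
  set ε' : ℝ := min (ε / (k * l + 1)) 1 with hε'
  have hkl : (0 : ℝ) < k * l + 1 := by positivity
  have hε'0 : 0 < ε' := lt_min (by positivity) one_pos
  have hε'1 : (k * l : ℝ) * ε' ≤ ε := by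
    have h1 : ε' ≤ ε / (k * l + 1) := min_le_left _ _
    rw [le_div_iff₀ hkl] at h1
    nlinarith
  obtain ⟨ϑ, h0, h01, hbox⟩ := box_P hs hε'0 (min_le_right _ _)
  refine ⟨ϑ, h0, fun α hα => ?_⟩
  obtain ⟨N0, hN02, hN0⟩ := hbox α hα
  refine ⟨N0, fun N hN P hP1 hP2 S δ hSδ => ?_⟩
  have huniv : Invariant Set.univ := fun x => by simp
  have hR : 0 < (DP P).card := by
    obtain ⟨δ0, _, _, hδ0⟩ := dens_side odd_one isCoprime_one_left hs (S := Set.univ) huniv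
    exact (hN0 N hN Set.univ huniv δ0 hδ0 P hP1 hP2 Set.univ Set.univ).1
  have hQ : 0 < (QQ Set.univ N).card := by
    apply Finset.card_pos.2
    exact ⟨2, mem_QQ.2 ⟨by omega, Nat.prime_two, Set.mem_univ _⟩⟩
  have hδm : ∀ i j, 0 ≤ δ i j ∧ δ i j ≤ 1 := fun i j => HD_mem hs (HD_of hs (hSδ i j).1 (hSδ i j).2)
  have hpos : (0 : ℝ) < ((DP P).card : ℝ) ^ k * ((QQ Set.univ N).card : ℝ) ^ l := by positivity
  refine ⟨by rw [← all_eq] at hpos; exact_mod_cast hpos, fun A B => ?_⟩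
  have h := count_U (R := fun i => (DP P).filter (fun p => p ∈ A i)) (Q := fun j => QQ (B j) N)
    (ρ := (DP P).card) (τ := (QQ Set.univ N).card) (fun i => Finset.card_filter_le _ _)
    (fun j => Finset.card_le_card fun q hq => by
      rw [mem_QQ] at hq ⊢; exact ⟨hq.1, hq.2.1, Set.mem_univ _⟩)
    (g := fun (e : Fin k × Fin l) p q => s * ((p * q : ℕ) : ℤ) ∈ S e.1 e.2)
    (δ := fun e => δ e.1 e.2) (fun e => (hδm e.1 e.2).1) (fun e => (hδm e.1 e.2).2) (ε := ε') hε'0.le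
    (fun e A' B' => by
      obtain ⟨AA, hAA⟩ : ∃ AA : Set ℕ, AA = A e.1 ∩ A' := ⟨_, rfl⟩
      have h1 := (hN0 N hN (S e.1 e.2) (hSδ e.1 e.2).1 (δ e.1 e.2)
        (HD_of hs (hSδ e.1 e.2).1 (hSδ e.1 e.2).2) P hP1 hP2 AA (B e.2 ∩ B')).2
      have e1 : (QQ (B e.2) N).filter (fun q => q ∈ B') = QQ (B e.2 ∩ B') N := by
        ext q
        rw [Finset.mem_filter, mem_QQ, mem_QQ]
        constructor
        · rintro ⟨⟨a, b, d⟩, c⟩; exact ⟨a, b, d, c⟩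
        · rintro ⟨a, b, d, c⟩; exact ⟨⟨a, b, d⟩, c⟩
      have e2 : ((DP P).filter (fun p => p ∈ A e.1)).filter (fun p => p ∈ A') =
          (DP P).filter (fun p => p ∈ AA) := by
        ext p
        rw [Finset.mem_filter, Finset.mem_filter, Finset.mem_filter, hAA, and_assoc]
        rfl
      rw [e1, e2]
      exact h1) Finset.univ
  rw [tuples_eq S, tuples_univ, all_eq]
  have e2 : ∏ e ∈ (Finset.univ : Finset (Fin k × Fin l)), δ e.1 e.2 = ∏ i, ∏ j, δ i j := by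
    rw [← Finset.univ_product_univ, Finset.prod_product]
  rw [e2] at h
  refine h.trans ?_
  have e3 : ((Finset.univ : Finset (Fin k × Fin l)).card : ℝ) = k * l := by
    rw [Finset.card_univ, Fintype.card_prod, Fintype.card_fin, Fintype.card_fin]
    push_cast; ring
  rw [e3]
  exact mul_le_mul_of_nonneg_right hε'1 (by positivity)

theorem not_div {s : ℤ} (hs : s = 1 ∨ s = -1) : ¬ Divergent s := by
  have h : ∀ k : ℕ, T^[k] s = s ∨ T^[k] s = 2 * s := by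
    intro k
    induction k with
    | zero => exact Or.inl rfl
    | succ k ih =>
      rw [Function.iterate_succ_apply']
      rcases hs with rfl | rfl
      · rcases ih with ih | ih <;> rw [ih] <;> decide
      · rcases ih with ih | ih <;> rw [ih] <;> decide
  intro hd
  obtain ⟨k, hk⟩ := (tendsto_atTop.1 hd 3).exists
  rcases h k with h1 | h1 <;> rw [h1] at hk <;> rcases hs with rfl | rfl <;> norm_num at hk

/-- Let `s = 1` or `s = -1`. A set of integers invariant under `T` and its inverse has a natural density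
`δ` among the integers of sign `s` (for the set of the integers with a divergent trajectory, `δ > 0` if
and only if one integer of sign `s` has a divergent trajectory).
(1) BILINEAR ESTIMATE. Let `ε > 0`. There is `ϑ > 0` such that for `0 < α < β ≤ ϑ` and `N ≥ N₀ (ε, α, β)`,
for every invariant set `S`, all `r ≤ N ^ ϑ` and ARBITRARY sets `A`, `B`: among the products of two primes
`p ∈ A`, `q ∈ B` with `N ^ α ≤ p ≤ N ^ β` and `r p q ≤ N`, the number of those with `s r p q ∈ S` is `δ`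
times the number of all, up to `ε` times the number of all pairs of primes `p`, `q` with
`N ^ α ≤ p ≤ N ^ β` and `r p q ≤ N`.
(2) PATTERNS. Let `ε > 0`. There is `ϑ > 0` such that for `α > 0`, `N ≥ N₀` and `N ^ α ≤ P ≤ N ^ ϑ`: the
number of the tuples of primes `p i ∈ A i` in `(P, 2 P]` and `q j ∈ B j` in `[1, N]`, with
`s (p i) (q j) ∈ S i j` for all `i < k` and `j < l`, is the product of the densities of the invariant sets
`S i j` times the number of all such tuples, up to `ε (π (2 P) - π (P)) ^ k π (N) ^ l`.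
(3) If an integer of sign `s` has a divergent trajectory, then so has some `s p q` with primes `p ∈ A`,
`q ∈ B`, for any `A`, `B` containing, for a suitable `N`, a positive proportion `κ` of the pairs in (1),
`β ≤ ϑ (κ)`; and every 0-1-matrix `E` occurs as the pattern of divergence of a positive proportion of the
products `s (p i) (q j)` in (2), also for `p i ∈ A i` and `q j ∈ B j` when a positive proportion of all
tuples is in these sets. -/
theorem result (s : ℤ) (hs : s = 1 ∨ s = -1) :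
    (∀ S : Set ℤ, Invariant S → ∃ δ : ℝ, 0 ≤ δ ∧ δ ≤ 1 ∧ HasDensity s S δ) ∧
    (∀ ε : ℝ, 0 < ε → ∃ ϑ : ℝ, 0 < ϑ ∧ ∀ α β : ℝ, 0 < α → α < β → β ≤ ϑ → ∃ N₀ : ℕ, ∀ N : ℕ, N₀ ≤ N →
      ∀ (S : Set ℤ) (δ : ℝ), Invariant S → HasDensity s S δ → ∀ r : ℕ, 1 ≤ r → (r : ℝ) ≤ (N : ℝ) ^ ϑ →
      0 < Pairs s Set.univ Set.univ Set.univ α β r N ∧ ∀ A B : Set ℕ,
      |(Pairs s S A B α β r N : ℝ) - δ * Pairs s Set.univ A B α β r N| ≤
        ε * Pairs s Set.univ Set.univ Set.univ α β r N) ∧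
    (∀ (k l : ℕ) (ε : ℝ), 0 < ε → ∃ ϑ : ℝ, 0 < ϑ ∧ ∀ α : ℝ, 0 < α → ∃ N₀ : ℕ, ∀ N : ℕ, N₀ ≤ N →
      ∀ P : ℝ, (N : ℝ) ^ α ≤ P → P ≤ (N : ℝ) ^ ϑ → ∀ (S : Fin k → Fin l → Set ℤ) (δ : Fin k → Fin l → ℝ),
      (∀ i j, Invariant (S i j) ∧ HasDensity s (S i j) (δ i j)) →
      0 < AllTuples k l P N ∧ ∀ (A : Fin k → Set ℕ) (B : Fin l → Set ℕ),
      |(Tuples s S A B P N : ℝ) - (∏ i, ∏ j, δ i j) *
        Tuples s (fun (_ : Fin k) (_ : Fin l) => Set.univ) A B P N| ≤ ε * AllTuples k l P N) ∧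
    ((∃ x : ℤ, 0 < s * x ∧ Divergent x) → ∃ δ : ℝ, 0 < δ ∧ HasDensity s {x | Divergent x} δ ∧
      (∀ κ : ℝ, 0 < κ → ∃ ϑ : ℝ, 0 < ϑ ∧ ∀ α β : ℝ, 0 < α → α < β → β ≤ ϑ → ∃ N₀ : ℕ,
        ∀ N : ℕ, N₀ ≤ N → ∀ A B : Set ℕ,
        κ * Pairs s Set.univ Set.univ Set.univ α β 1 N ≤ Pairs s Set.univ A B α β 1 N →
        δ / 2 * Pairs s Set.univ A B α β 1 N ≤ Pairs s {x | Divergent x} A B α β 1 N ∧
        ∃ p ∈ A, ∃ q ∈ B, p.Prime ∧ q.Prime ∧ p * q ≤ N ∧ Divergent (s * (p * q : ℕ))) ∧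
      (∀ (k l : ℕ) (E : Fin k → Fin l → Prop), ∃ c : ℝ, 0 < c ∧ ∀ κ : ℝ, 0 < κ → ∃ ϑ : ℝ, 0 < ϑ ∧
        ∀ α : ℝ, 0 < α → ∃ N₀ : ℕ, ∀ N : ℕ, N₀ ≤ N → ∀ P : ℝ, (N : ℝ) ^ α ≤ P → P ≤ (N : ℝ) ^ ϑ →
        0 < AllTuples k l P N ∧ ∀ (A : Fin k → Set ℕ) (B : Fin l → Set ℕ),
        κ * AllTuples k l P N ≤ Tuples s (fun (_ : Fin k) (_ : Fin l) => Set.univ) A B P N →
        c * Tuples s (fun (_ : Fin k) (_ : Fin l) => Set.univ) A B P N ≤
          Tuples s (fun i j => {x | Divergent x ↔ E i j}) A B P N)) := by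
  refine ⟨?_, part1 hs, part2 hs, ?_⟩
  · intro S hS
    obtain ⟨δ, h0, h1, hδ⟩ := dens_side odd_one isCoprime_one_left hs (S := S) hS
    exact ⟨δ, h0, h1, HD_ncard hs hδ⟩
  · rintro ⟨x0, hx0, hx0d⟩
    obtain ⟨δ, hδ0, hδ1, hδ⟩ := dens_side odd_one isCoprime_one_left hs (S := {x | Divergent x}) dinv
    have hpos : 0 < δ := Pool.Agent.H499R2.ND.one_pos hs dinv hx0d hx0 hδ
    refine ⟨δ, hpos, HD_ncard hs hδ, ?_, ?_⟩
    · intro κ hκ
      obtain ⟨ϑ, h0, h1⟩ := part1 hs (κ * δ / 2) (by positivity)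
      refine ⟨ϑ, h0, fun α β hα hαβ hβ => ?_⟩
      obtain ⟨N0, hN0⟩ := h1 α β hα hαβ hβ
      refine ⟨max 1 N0, fun N hN A B hAB => ?_⟩
      have hN1 : 1 ≤ N := (le_max_left _ _).trans hN
      obtain ⟨h2, h3⟩ := hN0 N ((le_max_right _ _).trans hN) {x | Divergent x} δ dinv (HD_ncard hs hδ) 1 le_rfl
        (by rw [Nat.cast_one]; exact Real.one_le_rpow (by exact_mod_cast hN1) h0.le)
      have h4 := (abs_le.1 (h3 A B)).1
      have h5 := mul_le_mul_of_nonneg_left hAB (show 0 ≤ δ / 2 by positivity)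
      have h6 : δ / 2 * (Pairs s Set.univ A B α β 1 N : ℝ) ≤ Pairs s {x | Divergent x} A B α β 1 N := by
        linarith
      refine ⟨h6, ?_⟩
      have h7 : (0 : ℝ) < Pairs s Set.univ Set.univ Set.univ α β 1 N := by exact_mod_cast h2
      have h8 : (0 : ℝ) < Pairs s Set.univ A B α β 1 N := lt_of_lt_of_le (by positivity) hAB
      have h9 : (0 : ℝ) < Pairs s {x | Divergent x} A B α β 1 N := lt_of_lt_of_le (by positivity) h6
      have h10 : 0 < Pairs s {x | Divergent x} A B α β 1 N := by exact_mod_cast h9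
      unfold Pairs at h10
      obtain ⟨z, ⟨hz1, hz2, hz3, hz4⟩⟩ := Set.nonempty_of_ncard_ne_zero h10.ne'
      simp only [one_mul] at hz3 hz4
      exact ⟨z.1, hz1.2.1, z.2, hz2.2, hz1.1, hz2.1, hz3, hz4⟩
    · intro k l E
      have hEinv : ∀ i j, Invariant {x | Divergent x ↔ E i j} := by
        intro i j x
        simp only [Set.mem_ofPred_eq]
        have := dinv x
        simp only [Set.mem_ofPred_eq] at this
        rw [this]
      have hE : ∀ i j, ∃ d : ℝ, 0 < d ∧ HasDensity s {x | Divergent x ↔ E i j} d := by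
        intro i j
        obtain ⟨d, _, _, hd⟩ := dens_side odd_one isCoprime_one_left hs (S := {x | Divergent x ↔ E i j})
          (hEinv i j)
        refine ⟨d, ?_, HD_ncard hs hd⟩
        by_cases h : E i j
        · exact Pool.Agent.H499R2.ND.one_pos hs (hEinv i j) (a := x0) (by simp [h, hx0d]) hx0 hd
        · exact Pool.Agent.H499R2.ND.one_pos hs (hEinv i j) (a := s) (by simp [h, not_div hs])
            (by rcases hs with rfl | rfl <;> norm_num) hd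
      choose d hd0 hd using hE
      have hpi : 0 < ∏ i, ∏ j, d i j := Finset.prod_pos fun i _ => Finset.prod_pos fun j _ => hd0 i j
      refine ⟨(∏ i, ∏ j, d i j) / 2, by positivity, fun κ hκ => ?_⟩
      obtain ⟨ϑ, h0, h1⟩ := part2 hs k l (κ * (∏ i, ∏ j, d i j) / 2) (by positivity)
      refine ⟨ϑ, h0, fun α hα => ?_⟩
      obtain ⟨N0, hN0⟩ := h1 α hα
      refine ⟨N0, fun N hN P hP1 hP2 => ?_⟩
      obtain ⟨h2, h3⟩ := hN0 N hN P hP1 hP2 (fun i j => {x | Divergent x ↔ E i j}) d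
        (fun i j => ⟨hEinv i j, hd i j⟩)
      refine ⟨h2, fun A B hAB => ?_⟩
      have h4 := (abs_le.1 (h3 A B)).1
      have h5 := mul_le_mul_of_nonneg_left hAB (show 0 ≤ (∏ i, ∏ j, d i j) / 2 by positivity)
      linarith

end Pool.Agent.Results.MP_ff4775_nt.ProductsOfTwoPrimes
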